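import Pool.Agent.Helper13.MX.Rows
import Pool.Agent.Helper87.MX.Fr

/-!
# The blocks of MixingRates (statement `S_BL`)
-/

set_option autoImplicit false

open MeasureTheory Finset Filter Topology

namespace Helper13.MXBL

open Helper13.MX (Good mean tm Mix4 rows bad2)

open Pool.Agent.Helper87.MX (Tor cf Inv rav good3 S_BL)

/-- the characters -/
noncomputable def ch (g k b : ℕ) (x : Tor) : ℂ := (fourier ((k * g ^ b : ℕ) : ℤ) x : ℂ)

lemma cf_mul {μ : Measure Tor} {g : ℕ} (hg : Inv g μ) (n : ℤ) : cf μ (g * n) = cf μ n := by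
  have h1 : cf μ n = ∫ x, (fourier n (g • x) : ℂ) ∂μ := by
    have h2 : cf μ n = ∫ x, (fourier n x : ℂ) ∂(Measure.map (fun x : Tor => g • x) μ) := by
      rw [hg.map_eq]
      rfl
    rw [h2, integral_map hg.measurable.aemeasurable
      (fourier n).continuous.measurable.aestronglyMeasurable]
  rw [h1]
  unfold cf
  refine integral_congr_ae (Eventually.of_forall fun x => ?_)
  simp only [fourier_apply]
  congr 2
  rw [mul_comm, mul_smul]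
  congr 1

lemma cf_pow {μ : Measure Tor} {g : ℕ} (hg : Inv g μ) (k b : ℕ) :
    cf μ ((k * g ^ b : ℕ) : ℤ) = cf μ k := by
  induction b with
  | zero => simp
  | succ b ih =>
    rw [← ih, ← cf_mul hg ((k * g ^ b : ℕ) : ℤ)]
    congr 1
    push_cast
    ring

lemma good_ch {μ : Measure Tor} {g : ℕ} (hg : Inv g μ) (k : ℕ) :
    Good μ (ch g k) (cf μ k) where
  meas := fun b => (fourier _).continuous.measurable
  bd := fun b x => by
    unfold ch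
    rw [fourier_apply]
    exact Circle.norm_coe _
  int := fun b => cf_pow hg k b

/-- the indicator of a Boolean -/
def bi (e : Bool) : ℤ := if e then 1 else 0

lemma bi_or (e : Bool) : bi e = 0 ∨ bi e = 1 := by
  cases e
  · exact Or.inl rfl
  · exact Or.inr rfl

lemma ext_ch (g k : ℕ) (e : Bool) (b : ℕ) (x : Tor) :
    Helper13.MX.ext (ch g k) e b x = (fourier (k * (bi e * g ^ b) : ℤ) x : ℂ) := by
  unfold Helper13.MX.ext ch bi
  cases e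
  · simp
  · simp

lemma tm_ch (g k : ℕ) (a : (Bool × ℕ) × (Bool × ℕ)) (x : Tor) :
    tm (ch g k) a x =
      (fourier (k * (bi a.1.1 * g ^ a.1.2 - bi a.2.1 * g ^ a.2.2) : ℤ) x : ℂ) := by
  unfold tm
  rw [ext_ch, ext_ch, mul_sub, sub_eq_add_neg, fourier_add, fourier_neg]
  rfl

lemma mix_ch {μ : Measure Tor} {g k : ℕ} {ρ : ℕ → ℝ} {γ : ℝ}
    (h : ∀ (b₁ b₂ b₃ b₄ D : ℕ) (e₁ e₂ e₃ e₄ : ℤ), (e₁ = 0 ∨ e₁ = 1) → (e₂ = 0 ∨ e₂ = 1) →
      (e₃ = 0 ∨ e₃ = 1) → (e₄ = 0 ∨ e₄ = 1) →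
      |(b₁ : ℝ) - b₂| ≤ (D : ℝ) ^ γ → |(b₃ : ℝ) - b₄| ≤ (D : ℝ) ^ γ →
      (D : ℝ) ≤ |(b₁ : ℝ) - b₃| → (D : ℝ) ≤ |(b₁ : ℝ) - b₄| →
      (D : ℝ) ≤ |(b₂ : ℝ) - b₃| → (D : ℝ) ≤ |(b₂ : ℝ) - b₄| →
        ‖cf μ (k * (e₁ * g ^ b₁ - e₂ * g ^ b₂ + (e₃ * g ^ b₃ - e₄ * g ^ b₄))) -
          cf μ (k * (e₁ * g ^ b₁ - e₂ * g ^ b₂)) * cf μ (k * (e₃ * g ^ b₃ - e₄ * g ^ b₄))‖
            ≤ ρ D) : Mix4 μ (ch g k) γ ρ := by
  intro D a b h1 h2 h3 h4 h5 h6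
  have h7 := h a.1.2 a.2.2 b.1.2 b.2.2 D (bi a.1.1) (bi a.2.1) (bi b.1.1) (bi b.2.1)
    (bi_or _) (bi_or _) (bi_or _) (bi_or _) h1 h2 h3 h4 h5 h6
  have h8 : ∀ x, tm (ch g k) a x * tm (ch g k) b x =
      (fourier (k * (bi a.1.1 * g ^ a.1.2 - bi a.2.1 * g ^ a.2.2 +
        (bi b.1.1 * g ^ b.1.2 - bi b.2.1 * g ^ b.2.2)) : ℤ) x : ℂ) := by
    intro x
    rw [tm_ch, tm_ch, mul_add, fourier_add]
  rw [integral_congr_ae (Eventually.of_forall h8)]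
  simp only [tm_ch]
  exact h7

/-- **The blocks.** -/
theorem s_BL : S_BL := by
  intro μ hμ g k _ hg hc hmix
  obtain ⟨ρ, γ, hρ, hρs, hγ, h⟩ := hmix
  obtain ⟨F, hF, hs⟩ := rows (good_ch hg k) hc hρ hρs hγ (mix_ch h)
  have hc0 : 0 < ‖cf μ k‖ := norm_pos_iff.2 hc
  have hsub : ∀ N, (good3 g k (cf μ k) (F N))ᶜ ⊆ bad2 (ch g k) (cf μ k) (1 / 2) (F N) := by
    intro N x hx
    have hbad : ∀ i, ¬ ‖rav g k (F N i) x - cf μ k‖ < ‖cf μ k‖ / 2 →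
        (1 / 2 : ℝ) ≤ ‖mean (ch g k) (F N i) x / cf μ k - 1‖ := by
      intro i hi
      push Not at hi
      have h1 : mean (ch g k) (F N i) x / cf μ k - 1 =
          (rav g k (F N i) x - cf μ k) / cf μ k := by
        rw [sub_div, div_self hc]
        rfl
      rw [h1, norm_div, le_div_iff₀ hc0]
      linarith
    have hno : ∀ i l : Fin 3, i ≠ l → ‖rav g k (F N i) x - cf μ k‖ < ‖cf μ k‖ / 2 →
        ¬ ‖rav g k (F N l) x - cf μ k‖ < ‖cf μ k‖ / 2 := fun i l hil h1 h2 =>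
      hx ⟨i, l, hil, h1, h2⟩
    by_cases h0 : ‖rav g k (F N 0) x - cf μ k‖ < ‖cf μ k‖ / 2
    · exact ⟨1, 2, by decide, hbad 1 (hno 0 1 (by decide) h0), hbad 2 (hno 0 2 (by decide) h0)⟩
    · by_cases h1 : ‖rav g k (F N 1) x - cf μ k‖ < ‖cf μ k‖ / 2
      · exact ⟨0, 2, by decide, hbad 0 h0, hbad 2 (hno 1 2 (by decide) h1)⟩
      · exact ⟨0, 1, by decide, hbad 0 h0, hbad 1 h1⟩
  refine ⟨F, fun N => μ.real (good3 g k (cf μ k) (F N))ᶜ, ?_, fun N =>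
    ⟨measureReal_nonneg, measureReal_le_one⟩, fun N i b hb => (hF N i).2 b hb, fun N => le_rfl⟩
  refine Summable.of_nonneg_of_le (fun N => measureReal_nonneg) (fun N => ?_)
    (hs (1 / 2) (by norm_num))
  exact measureReal_mono (hsub N) (measure_ne_top μ _)

end Helper13.MXBL
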