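import Mathlib

/-!
# Means of characters: squares and products of squares of deviations
-/

set_option autoImplicit false

open MeasureTheory Finset

namespace Helper13.MX

variable {X ι : Type*}

/-- the mean of the functions `φ p`, `p ∈ F` -/
noncomputable def mean (φ : ι → X → ℂ) (F : Finset ι) (x : X) : ℂ :=
  (∑ p ∈ F, φ p x) / (F.card : ℂ)

/-- `1` or a character -/
def ext (φ : ι → X → ℂ) (e : Bool) (p : ι) (x : X) : ℂ := if e then φ p x else 1

/-- the coefficient -/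
noncomputable def cf (c : ℂ) (e : Bool) : ℂ := if e then 1 / c else -1

/-- the square of the relative deviation of the mean from `c` -/
noncomputable def dev (φ : ι → X → ℂ) (c : ℂ) (F : Finset ι) (x : X) : ℝ :=
  ‖mean φ F x / c - 1‖ ^ 2

lemma dev_nonneg (φ : ι → X → ℂ) (c : ℂ) (F : Finset ι) (x : X) : 0 ≤ dev φ c F x := by
  unfold dev
  positivity

/-- the terms of the square of the deviation -/
noncomputable def tm (φ : ι → X → ℂ) (a : (Bool × ι) × (Bool × ι)) (x : X) : ℂ :=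
  ext φ a.1.1 a.1.2 x * star (ext φ a.2.1 a.2.2 x)

/-- the weights of the terms -/
noncomputable def wt (c : ℂ) (F : Finset ι) (a : (Bool × ι) × (Bool × ι)) : ℂ :=
  (cf c a.1.1 / F.card) * star (cf c a.2.1 / (F.card : ℂ))

/-- the set of terms -/
def ix (F : Finset ι) : Finset ((Bool × ι) × (Bool × ι)) :=
  ((Finset.univ : Finset Bool) ×ˢ F) ×ˢ ((Finset.univ : Finset Bool) ×ˢ F)

lemma mean_sub (φ : ι → X → ℂ) (c : ℂ) {F : Finset ι} (hF : F.Nonempty) (x : X) :
    mean φ F x / c - 1 =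
      ∑ a ∈ (Finset.univ : Finset Bool) ×ˢ F, cf c a.1 / F.card * ext φ a.1 a.2 x := by
  have hc : (F.card : ℂ) ≠ 0 := by
    have := hF.card_pos
    exact_mod_cast this.ne'
  rw [Finset.sum_product, Fintype.sum_bool]
  unfold mean cf ext
  simp only [if_true, Bool.false_eq_true, if_false]
  rw [← Finset.mul_sum, Finset.sum_const, nsmul_eq_mul]
  field_simp
  ring

lemma dev_eq (φ : ι → X → ℂ) (c : ℂ) {F : Finset ι} (hF : F.Nonempty) (x : X) :
    ((dev φ c F x : ℝ) : ℂ) = ∑ a ∈ ix F, wt c F a * tm φ a x := by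
  have h1 : ((dev φ c F x : ℝ) : ℂ) =
      (mean φ F x / c - 1) * star (mean φ F x / c - 1) := by
    unfold dev
    rw [Complex.star_def, Complex.mul_conj, Complex.normSq_eq_norm_sq]
  rw [h1, mean_sub φ c hF x, star_sum, Finset.sum_mul_sum, ix, ← Finset.sum_product']
  refine Finset.sum_congr rfl fun a _ => ?_
  unfold wt tm
  rw [star_mul']
  ring

lemma norm_cf_le (c : ℂ) : ∑ e : Bool, ‖cf c e‖ = 1 + 1 / ‖c‖ := by
  rw [Fintype.sum_bool]
  unfold cf
  simp
  ring

lemma sum_wt (c : ℂ) {F : Finset ι} (hF : F.Nonempty) :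
    ∑ a ∈ ix F, ‖wt c F a‖ = (1 + 1 / ‖c‖) ^ 2 := by
  have hc : (F.card : ℝ) ≠ 0 := by
    have := hF.card_pos
    exact_mod_cast this.ne'
  have h1 : ∑ a ∈ (Finset.univ : Finset Bool) ×ˢ F, ‖cf c a.1 / (F.card : ℂ)‖ = 1 + 1 / ‖c‖ := by
    rw [Finset.sum_product, ← norm_cf_le c]
    refine Finset.sum_congr rfl fun e _ => ?_
    simp only [norm_div, Finset.sum_const, nsmul_eq_mul, Complex.norm_natCast]
    field_simp
  rw [ix, Finset.sum_product, sq]
  nth_rw 1 [← h1]
  rw [← h1, Finset.sum_mul_sum]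
  refine Finset.sum_congr rfl fun a _ => Finset.sum_congr rfl fun b _ => ?_
  unfold wt
  rw [norm_mul, norm_star]

/-- hypotheses on the characters -/
structure Good [MeasurableSpace X] (μ : Measure X) (φ : ι → X → ℂ) (c : ℂ) : Prop where
  meas : ∀ p, Measurable (φ p)
  bd : ∀ p x, ‖φ p x‖ = 1
  int : ∀ p, ∫ x, φ p x ∂μ = c

variable [MeasurableSpace X] {μ : Measure X} [IsProbabilityMeasure μ] {φ : ι → X → ℂ} {c : ℂ}

omit [IsProbabilityMeasure μ] in
lemma Good.meas_ext (h : Good μ φ c) (e : Bool) (p : ι) : Measurable (ext φ e p) := by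
  unfold ext
  cases e
  · simp
  · simpa using h.meas p

omit [IsProbabilityMeasure μ] in
lemma Good.norm_ext (h : Good μ φ c) (e : Bool) (p : ι) (x : X) : ‖ext φ e p x‖ = 1 := by
  unfold ext
  cases e
  · simp
  · simpa using h.bd p x

omit [IsProbabilityMeasure μ] in
lemma Good.meas_tm (h : Good μ φ c) (a : (Bool × ι) × (Bool × ι)) : Measurable (tm φ a) := by
  unfold tm
  exact (h.meas_ext _ _).mul (Complex.continuous_conj.measurable.comp (h.meas_ext _ _))

omit [IsProbabilityMeasure μ] in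
lemma Good.norm_tm (h : Good μ φ c) (a : (Bool × ι) × (Bool × ι)) (x : X) : ‖tm φ a x‖ = 1 := by
  unfold tm
  rw [norm_mul, norm_star, h.norm_ext, h.norm_ext, one_mul]

lemma integrable_of_norm {g : X → ℂ} (hg : Measurable g) (hb : ∀ x, ‖g x‖ ≤ 1) :
    Integrable g μ :=
  Integrable.of_bound hg.aestronglyMeasurable 1 (Filter.Eventually.of_forall hb)

lemma Good.int_tm (h : Good μ φ c) (a : (Bool × ι) × (Bool × ι)) : Integrable (tm φ a) μ :=
  integrable_of_norm (h.meas_tm a) fun x => (h.norm_tm a x).le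

omit [IsProbabilityMeasure μ] in
lemma Good.meas_dev (h : Good μ φ c) (F : Finset ι) : Measurable (dev φ c F) := by
  unfold dev mean
  have h1 : Measurable fun x => ∑ p ∈ F, φ p x := Finset.measurable_sum _ fun p _ => h.meas p
  exact ((((h1.div_const _).div_const _).sub_const _).norm).pow_const _

omit [IsProbabilityMeasure μ] in
lemma Good.dev_le (h : Good μ φ c) {F : Finset ι} (hF : F.Nonempty) (x : X) :
    dev φ c F x ≤ (1 + 1 / ‖c‖) ^ 2 := by
  have h1 : dev φ c F x = ‖((dev φ c F x : ℝ) : ℂ)‖ := by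
    rw [Complex.norm_real, Real.norm_eq_abs, abs_of_nonneg (dev_nonneg φ c F x)]
  rw [h1, dev_eq φ c hF x, ← sum_wt c hF]
  refine (norm_sum_le _ _).trans (Finset.sum_le_sum fun a _ => ?_)
  rw [norm_mul, h.norm_tm, mul_one]

lemma Good.int_dev (h : Good μ φ c) {F : Finset ι} (hF : F.Nonempty) :
    Integrable (dev φ c F) μ :=
  Integrable.of_bound (h.meas_dev F).aestronglyMeasurable ((1 + 1 / ‖c‖) ^ 2)
    (Filter.Eventually.of_forall fun x => by
      rw [Real.norm_eq_abs, abs_of_nonneg (dev_nonneg φ c F x)]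
      exact h.dev_le hF x)

lemma Good.int_dev_mul (h : Good μ φ c) {F G : Finset ι} (hF : F.Nonempty) (hG : G.Nonempty) :
    Integrable (fun x => dev φ c F x * dev φ c G x) μ :=
  Integrable.of_bound ((h.meas_dev F).mul (h.meas_dev G)).aestronglyMeasurable
    ((1 + 1 / ‖c‖) ^ 2 * (1 + 1 / ‖c‖) ^ 2)
    (Filter.Eventually.of_forall fun x => by
      rw [Real.norm_eq_abs, abs_of_nonneg (mul_nonneg (dev_nonneg φ c F x) (dev_nonneg φ c G x))]
      exact mul_le_mul (h.dev_le hF x) (h.dev_le hG x) (dev_nonneg φ c G x) (by positivity))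

/-- The mean square of the deviation. -/
theorem Good.integral_dev (h : Good μ φ c) (hc : c ≠ 0) {F : Finset ι} (hF : F.Nonempty) :
    ((∫ x, dev φ c F x ∂μ : ℝ) : ℂ) =
      (∑ p ∈ F, ∑ q ∈ F, ∫ x, φ p x * star (φ q x) ∂μ) /
        ((F.card : ℂ) ^ 2 * (‖c‖ : ℂ) ^ 2) - 1 := by
  have hn : (F.card : ℂ) ≠ 0 := by
    have := hF.card_pos
    exact_mod_cast this.ne'
  have hsc : star c ≠ 0 := by simpa using hc
  have hnc : c * star c = (‖c‖ : ℂ) ^ 2 := by
    rw [Complex.star_def, Complex.mul_conj, Complex.normSq_eq_norm_sq]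
    push_cast
    rfl
  have hint : ∀ p q, Integrable (fun x => φ p x * star (φ q x)) μ := fun p q =>
    integrable_of_norm ((h.meas p).mul (Complex.continuous_conj.measurable.comp (h.meas q)))
      fun x => by rw [norm_mul, norm_star, h.bd, h.bd, one_mul]
  have hint1 : ∀ p, Integrable (φ p) μ := fun p =>
    integrable_of_norm (h.meas p) fun x => (h.bd p x).le
  have hint2 : ∀ p, Integrable (fun x => star (φ p x)) μ := fun p =>
    integrable_of_norm (Complex.continuous_conj.measurable.comp (h.meas p))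
      fun x => by rw [norm_star]; exact (h.bd p x).le
  have hstar : ∀ p, ∫ x, star (φ p x) ∂μ = star c := fun p => by
    have h1 : ∫ x, star (φ p x) ∂μ = star (∫ x, φ p x ∂μ) := integral_conj
    rw [h1, h.int p]
  have h1 : ((∫ x, dev φ c F x ∂μ : ℝ) : ℂ) = ∫ x, ((dev φ c F x : ℝ) : ℂ) ∂μ :=
    integral_ofReal.symm
  have h2 : ∀ x, ((dev φ c F x : ℝ) : ℂ) =
      (∑ p ∈ F, ∑ q ∈ F, φ p x * star (φ q x)) / ((F.card : ℂ) ^ 2 * (‖c‖ : ℂ) ^ 2)
        - (∑ p ∈ F, φ p x) / (F.card * c) - (∑ p ∈ F, star (φ p x)) / (F.card * star c) + 1 := by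
    intro x
    have h3 : ((dev φ c F x : ℝ) : ℂ) =
        (mean φ F x / c - 1) * star (mean φ F x / c - 1) := by
      unfold dev
      rw [Complex.star_def, Complex.mul_conj, Complex.normSq_eq_norm_sq]
    have h4 : star (mean φ F x) = (∑ p ∈ F, star (φ p x)) / F.card := by
      unfold mean
      rw [star_div₀, star_sum, star_natCast]
    have h5 : star (mean φ F x / c - 1) = (∑ p ∈ F, star (φ p x)) / F.card / star c - 1 := by
      rw [star_sub, star_div₀, h4, star_one]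
    rw [h3, h5, ← Finset.sum_mul_sum, ← hnc]
    unfold mean
    field_simp
    ring
  rw [h1, integral_congr_ae (Filter.Eventually.of_forall h2)]
  rw [integral_add, integral_sub, integral_sub, integral_div, integral_div, integral_div,
    integral_finsetSum, integral_finsetSum, integral_finsetSum]
  · have h6 : ∀ p ∈ F, ∫ x, ∑ q ∈ F, φ p x * star (φ q x) ∂μ =
        ∑ q ∈ F, ∫ x, φ p x * star (φ q x) ∂μ := fun p _ =>
      integral_finsetSum _ fun q _ => hint p q
    rw [Finset.sum_congr rfl h6]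
    simp only [h.int, hstar, Finset.sum_const, nsmul_eq_mul]
    rw [integral_const, probReal_univ, one_smul]
    field_simp
    ring
  · exact fun p _ => hint2 p
  · exact fun p _ => hint1 p
  · exact fun p _ => integrable_finsetSum _ fun q _ => hint p q
  · exact (integrable_finsetSum _ fun p _ => integrable_finsetSum _ fun q _ =>
      hint p q).div_const _
  · exact (integrable_finsetSum _ fun p _ => hint1 p).div_const _
  · exact ((integrable_finsetSum _ fun p _ => integrable_finsetSum _ fun q _ =>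
      hint p q).div_const _).sub ((integrable_finsetSum _ fun p _ => hint1 p).div_const _)
  · exact (integrable_finsetSum _ fun p _ => hint2 p).div_const _
  · exact (((integrable_finsetSum _ fun p _ => integrable_finsetSum _ fun q _ =>
      hint p q).div_const _).sub ((integrable_finsetSum _ fun p _ => hint1 p).div_const _)).sub
      ((integrable_finsetSum _ fun p _ => hint2 p).div_const _)
  · exact integrable_const _

/-- The mean square of the deviation is bounded by the correlations. -/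
theorem Good.integral_dev_le (h : Good μ φ c) (hc : c ≠ 0) {F : Finset ι} (hF : F.Nonempty)
    (E : ι → ι → ℝ)
    (hE : ∀ p ∈ F, ∀ q ∈ F, ‖∫ x, φ p x * star (φ q x) ∂μ - (‖c‖ : ℂ) ^ 2‖ ≤ E p q) :
    ∫ x, dev φ c F x ∂μ ≤ (∑ p ∈ F, ∑ q ∈ F, E p q) / ((F.card : ℝ) ^ 2 * ‖c‖ ^ 2) := by
  have hn : (F.card : ℝ) ≠ 0 := by
    have := hF.card_pos
    exact_mod_cast this.ne'
  have hn' : (F.card : ℂ) ≠ 0 := by exact_mod_cast hn
  have hc' : (‖c‖ : ℝ) ≠ 0 := norm_ne_zero_iff.2 hc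
  have hc'' : (‖c‖ : ℂ) ≠ 0 := by exact_mod_cast hc'
  have h0 : 0 ≤ ∫ x, dev φ c F x ∂μ := integral_nonneg fun x => dev_nonneg φ c F x
  have h1 : ((∫ x, dev φ c F x ∂μ : ℝ) : ℂ) =
      (∑ p ∈ F, ∑ q ∈ F, (∫ x, φ p x * star (φ q x) ∂μ - (‖c‖ : ℂ) ^ 2)) /
        ((F.card : ℂ) ^ 2 * (‖c‖ : ℂ) ^ 2) := by
    rw [h.integral_dev hc hF]
    have h8 : ∑ p ∈ F, ∑ q ∈ F, (∫ x, φ p x * star (φ q x) ∂μ - (‖c‖ : ℂ) ^ 2) =
        (∑ p ∈ F, ∑ q ∈ F, ∫ x, φ p x * star (φ q x) ∂μ) -
          (F.card : ℂ) * ((F.card : ℂ) * (‖c‖ : ℂ) ^ 2) := by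
      rw [← nsmul_eq_mul, ← nsmul_eq_mul, ← Finset.sum_const, ← Finset.sum_const,
        ← Finset.sum_sub_distrib]
      refine Finset.sum_congr rfl fun p _ => ?_
      rw [← Finset.sum_sub_distrib]
    rw [h8, sub_div]
    congr 1
    field_simp
  have h2 : ∫ x, dev φ c F x ∂μ = ‖((∫ x, dev φ c F x ∂μ : ℝ) : ℂ)‖ := by
    rw [Complex.norm_real, Real.norm_eq_abs, abs_of_nonneg h0]
  rw [h2, h1, norm_div]
  have h3 : ‖(F.card : ℂ) ^ 2 * (‖c‖ : ℂ) ^ 2‖ = (F.card : ℝ) ^ 2 * ‖c‖ ^ 2 := by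
    rw [norm_mul, norm_pow, norm_pow, Complex.norm_natCast, Complex.norm_real, norm_norm]
  rw [h3]
  refine div_le_div_of_nonneg_right ?_ (mul_nonneg (sq_nonneg _) (sq_nonneg _))
  refine (norm_sum_le _ _).trans (Finset.sum_le_sum fun p hp => ?_)
  exact (norm_sum_le _ _).trans (Finset.sum_le_sum fun q hq => hE p hp q hq)

/-- The mean of the product of two squares of deviations. -/
theorem Good.integral_dev_mul_le (h : Good μ φ c) {F G : Finset ι} (hF : F.Nonempty)
    (hG : G.Nonempty) {ε : ℝ}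
    (hε : ∀ a ∈ ix F, ∀ b ∈ ix G,
      ‖∫ x, tm φ a x * tm φ b x ∂μ - (∫ x, tm φ a x ∂μ) * ∫ x, tm φ b x ∂μ‖ ≤ ε) :
    ∫ x, dev φ c F x * dev φ c G x ∂μ ≤
      (∫ x, dev φ c F x ∂μ) * (∫ x, dev φ c G x ∂μ) + (1 + 1 / ‖c‖) ^ 4 * ε := by
  have hmul : ∀ a b, Integrable (fun x => tm φ a x * tm φ b x) μ := fun a b =>
    integrable_of_norm ((h.meas_tm a).mul (h.meas_tm b)) fun x => by
      rw [norm_mul, h.norm_tm, h.norm_tm, one_mul]
  have h1 : ((∫ x, dev φ c F x * dev φ c G x ∂μ : ℝ) : ℂ) =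
      ∑ a ∈ ix F, ∑ b ∈ ix G, wt c F a * wt c G b * ∫ x, tm φ a x * tm φ b x ∂μ := by
    have h2 : ((∫ x, dev φ c F x * dev φ c G x ∂μ : ℝ) : ℂ) =
        ∫ x, ((dev φ c F x * dev φ c G x : ℝ) : ℂ) ∂μ := integral_ofReal.symm
    have h3 : ∀ x, ((dev φ c F x * dev φ c G x : ℝ) : ℂ) =
        ∑ a ∈ ix F, ∑ b ∈ ix G, wt c F a * wt c G b * (tm φ a x * tm φ b x) := by
      intro x
      rw [Complex.ofReal_mul, dev_eq φ c hF x, dev_eq φ c hG x, Finset.sum_mul_sum]
      refine Finset.sum_congr rfl fun a _ => Finset.sum_congr rfl fun b _ => ?_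
      ring
    rw [h2, integral_congr_ae (Filter.Eventually.of_forall h3), integral_finsetSum]
    · refine Finset.sum_congr rfl fun a _ => ?_
      rw [integral_finsetSum]
      · refine Finset.sum_congr rfl fun b _ => ?_
        rw [integral_const_mul]
      · exact fun b _ => (hmul a b).const_mul _
    · exact fun a _ => integrable_finsetSum _ fun b _ => (hmul a b).const_mul _
  have h4 : ∀ {H : Finset ι}, H.Nonempty → ((∫ x, dev φ c H x ∂μ : ℝ) : ℂ) =
      ∑ a ∈ ix H, wt c H a * ∫ x, tm φ a x ∂μ := by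
    intro H hH
    have h2 : ((∫ x, dev φ c H x ∂μ : ℝ) : ℂ) =
        ∫ x, ((dev φ c H x : ℝ) : ℂ) ∂μ := integral_ofReal.symm
    rw [h2, integral_congr_ae (Filter.Eventually.of_forall (dev_eq φ c hH)), integral_finsetSum]
    · refine Finset.sum_congr rfl fun a _ => ?_
      rw [integral_const_mul]
    · exact fun a _ => (h.int_tm a).const_mul _
  have h5 : ((∫ x, dev φ c F x * dev φ c G x ∂μ -
      (∫ x, dev φ c F x ∂μ) * (∫ x, dev φ c G x ∂μ) : ℝ) : ℂ) =
      ∑ a ∈ ix F, ∑ b ∈ ix G, wt c F a * wt c G b *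
        (∫ x, tm φ a x * tm φ b x ∂μ - (∫ x, tm φ a x ∂μ) * ∫ x, tm φ b x ∂μ) := by
    rw [Complex.ofReal_sub, Complex.ofReal_mul, h1, h4 hF, h4 hG, Finset.sum_mul_sum,
      ← Finset.sum_sub_distrib]
    refine Finset.sum_congr rfl fun a _ => ?_
    rw [← Finset.sum_sub_distrib]
    refine Finset.sum_congr rfl fun b _ => ?_
    ring
  have h6 : |∫ x, dev φ c F x * dev φ c G x ∂μ -
      (∫ x, dev φ c F x ∂μ) * (∫ x, dev φ c G x ∂μ)| ≤ (1 + 1 / ‖c‖) ^ 4 * ε := by
    rw [← Real.norm_eq_abs, ← Complex.norm_real, h5]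
    calc ‖∑ a ∈ ix F, ∑ b ∈ ix G, wt c F a * wt c G b *
        (∫ x, tm φ a x * tm φ b x ∂μ - (∫ x, tm φ a x ∂μ) * ∫ x, tm φ b x ∂μ)‖
        ≤ ∑ a ∈ ix F, ∑ b ∈ ix G, ‖wt c F a‖ * ‖wt c G b‖ * ε := by
          refine (norm_sum_le _ _).trans (Finset.sum_le_sum fun a ha => ?_)
          refine (norm_sum_le _ _).trans (Finset.sum_le_sum fun b hb => ?_)
          rw [norm_mul, norm_mul]
          exact mul_le_mul_of_nonneg_left (hε a ha b hb) (by positivity)
      _ = (∑ a ∈ ix F, ‖wt c F a‖) * (∑ b ∈ ix G, ‖wt c G b‖) * ε := by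
          rw [Finset.sum_mul_sum, Finset.sum_mul]
          refine Finset.sum_congr rfl fun a _ => ?_
          rw [Finset.sum_mul]
      _ = (1 + 1 / ‖c‖) ^ 4 * ε := by
          rw [sum_wt c hF, sum_wt c hG]
          ring
  have h7 := (abs_le.1 h6).2
  linarith

end Helper13.MX
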