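import Mathlib

/-!
# The numbers `2 ^ a * 3 ^ b` in narrow windows
-/

set_option autoImplicit false

open Finset

namespace Helper13.MX

/-- `2 ^ a * 3 ^ b` -/
def su (p : ℕ × ℕ) : ℕ := 2 ^ p.1 * 3 ^ p.2

lemma su_pos (p : ℕ × ℕ) : 0 < su p := by
  unfold su
  positivity

lemma log_su (p : ℕ × ℕ) : Real.log (su p) = p.1 * Real.log 2 + p.2 * Real.log 3 := by
  unfold su
  push_cast
  rw [Real.log_mul (by positivity) (by positivity), Real.log_pow, Real.log_pow]

lemma log_irr : Irrational (Real.log 3 / Real.log 2) := by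
  intro ⟨q, hq⟩
  have h2 : (0 : ℝ) < Real.log 2 := Real.log_pos (by norm_num)
  have h3 : (0 : ℝ) < Real.log 3 := Real.log_pos (by norm_num)
  have hq0 : (0 : ℝ) < q := by rw [hq]; positivity
  have hq1 : 0 < q := by exact_mod_cast hq0
  have hden : (0 : ℝ) < q.den := by exact_mod_cast q.den_pos
  have hnum : 0 < q.num := Rat.num_pos.2 hq1
  obtain ⟨n, hn⟩ := Int.eq_ofNat_of_zero_le hnum.le
  have hcast : (q : ℝ) = (n : ℝ) / q.den := by
    have h4 : q = (n : ℚ) / q.den := by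
      conv_lhs => rw [← Rat.num_div_den q]
      rw [hn]
      simp
    have h5 : ((q : ℚ) : ℝ) = (((n : ℚ) / q.den : ℚ) : ℝ) := congrArg _ h4
    rw [h5]
    push_cast
    rfl
  have h6 : (n : ℝ) * Real.log 2 = q.den * Real.log 3 := by
    rw [hcast] at hq
    field_simp at hq
    linarith
  have h7 : Real.log ((2 : ℝ) ^ n) = Real.log ((3 : ℝ) ^ q.den) := by
    rw [Real.log_pow, Real.log_pow, h6]
  have h8 : (2 : ℝ) ^ n = 3 ^ q.den :=
    Real.log_injOn_pos (Set.mem_Ioi.2 (by positivity)) (Set.mem_Ioi.2 (by positivity)) h7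
  have h9 : 2 ^ n = 3 ^ q.den := by exact_mod_cast h8
  have hn0 : n ≠ 0 := by
    rintro rfl
    rw [hn] at hnum
    exact lt_irrefl _ hnum
  have h10 : 2 ∣ 3 ^ q.den := h9 ▸ dvd_pow_self 2 hn0
  have h11 := Nat.Prime.dvd_of_dvd_pow Nat.prime_two h10
  omega

/-- a rotation by a small angle visits `[0, ε)` in bounded time -/
lemma rot {δ ε : ℝ} (hδ0 : δ ≠ 0) (hδ : |δ| < ε) (y : ℝ) :
    ∃ i : ℕ, i ≤ ⌈1 / |δ|⌉₊ ∧ Int.fract (y + i * δ) < ε := by
  rcases lt_or_gt_of_ne hδ0 with h | h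
  · have ha : |δ| = -δ := abs_of_neg h
    rw [ha] at hδ ⊢
    have hp : 0 < -δ := by linarith
    refine ⟨⌊Int.fract y / (-δ)⌋₊, ?_, ?_⟩
    · refine (Nat.floor_le_ceil _).trans (Nat.ceil_mono ?_)
      exact div_le_div_of_nonneg_right (Int.fract_lt_one y).le hp.le
    · have h1 := Nat.floor_le (div_nonneg (Int.fract_nonneg y) hp.le)
      have h2 := Nat.lt_floor_add_one (Int.fract y / (-δ))
      rw [le_div_iff₀ hp] at h1
      rw [div_lt_iff₀ hp] at h2
      set i : ℕ := ⌊Int.fract y / (-δ)⌋₊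
      have h3 : y + i * δ = (Int.fract y - i * (-δ)) + (⌊y⌋ : ℤ) := by
        have := Int.fract_add_floor y
        linarith
      rw [h3, Int.fract_add_intCast, Int.fract_eq_self.2 ⟨by linarith, ?_⟩]
      · linarith
      · have := Int.fract_lt_one y
        have h4 : 0 ≤ (i : ℝ) * (-δ) := by positivity
        linarith
  · have ha : |δ| = δ := abs_of_pos h
    rw [ha] at hδ ⊢
    refine ⟨⌈(1 - Int.fract y) / δ⌉₊, ?_, ?_⟩
    · exact Nat.ceil_mono (div_le_div_of_nonneg_right (by linarith [Int.fract_nonneg y]) h.le)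
    · have h0 : 0 < (1 - Int.fract y) / δ := div_pos (by linarith [Int.fract_lt_one y]) h
      have h1 := Nat.le_ceil ((1 - Int.fract y) / δ)
      have h2 := Nat.ceil_lt_add_one h0.le
      rw [div_le_iff₀ h] at h1
      set i : ℕ := ⌈(1 - Int.fract y) / δ⌉₊
      have h5 : (i : ℝ) * δ < 1 - Int.fract y + δ := by
        have h6 : (i : ℝ) - 1 < (1 - Int.fract y) / δ := by linarith
        rw [lt_div_iff₀ h] at h6
        linarith
      have h3 : y + i * δ = (Int.fract y + i * δ - 1) + ((⌊y⌋ + 1 : ℤ) : ℝ) := by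
        have := Int.fract_add_floor y
        push_cast
        linarith
      rw [h3, Int.fract_add_intCast]
      rcases lt_or_ge (Int.fract y + i * δ - 1) 1 with h7 | h7
      · rw [Int.fract_eq_self.2 ⟨by linarith, h7⟩]
        linarith
      · exact lt_trans (Int.fract_lt_one _) (by linarith)

/-- Narrow windows contain numbers `2 ^ a * 3 ^ b` with `b` in any interval of bounded length. -/
theorem window {η : ℝ} (hη : 0 < η) : ∃ L : ℕ, 0 < L ∧ ∀ (U : ℝ) (b₀ : ℕ),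
    ((b₀ : ℝ) + L) * Real.log 3 ≤ U → ∃ a b : ℕ, b₀ ≤ b ∧ b < b₀ + L ∧
      U ≤ a * Real.log 2 + b * Real.log 3 ∧ a * Real.log 2 + b * Real.log 3 < U + η := by
  have h2 : (0 : ℝ) < Real.log 2 := Real.log_pos (by norm_num)
  have h3 : (0 : ℝ) < Real.log 3 := Real.log_pos (by norm_num)
  obtain ⟨θ, hθ⟩ : ∃ θ : ℝ, θ = Real.log 3 / Real.log 2 := ⟨_, rfl⟩
  obtain ⟨ε, hε⟩ : ∃ ε : ℝ, ε = η / Real.log 2 := ⟨_, rfl⟩
  have hε0 : 0 < ε := by rw [hε]; positivity
  obtain ⟨n, hn⟩ := exists_nat_one_div_lt hε0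
  obtain ⟨k, hk0, hk, hkr⟩ := Real.exists_nat_abs_mul_sub_round_le θ (n := n + 1) (by omega)
  obtain ⟨δ, hδ⟩ : ∃ δ : ℝ, δ = k * θ - round (k * θ) := ⟨_, rfl⟩
  have hδ1 : |δ| < ε := by
    rw [hδ]
    refine hkr.trans_lt (lt_of_le_of_lt ?_ hn)
    push_cast
    exact one_div_le_one_div_of_le (by positivity) (by linarith)
  have hδ0 : δ ≠ 0 := by
    intro h
    have h4 : Irrational ((k : ℝ) * θ) := by
      rw [hθ]
      exact log_irr.natCast_mul (by omega)
    refine h4 ⟨(round ((k : ℝ) * θ) : ℤ), ?_⟩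
    push_cast
    linarith
  refine ⟨k * ⌈1 / |δ|⌉₊ + 1, by omega, fun U b₀ hU => ?_⟩
  obtain ⟨i, hi, hi'⟩ := rot hδ0 hδ1 (-(U / Real.log 2 - b₀ * θ))
  obtain ⟨b, hb⟩ : ∃ b : ℕ, b = b₀ + k * i := ⟨_, rfl⟩
  have hbL : b < b₀ + (k * ⌈1 / |δ|⌉₊ + 1) := by
    rw [hb]
    have := Nat.mul_le_mul_left k hi
    omega
  obtain ⟨x, hx⟩ : ∃ x : ℝ, x = U / Real.log 2 - b * θ := ⟨_, rfl⟩
  have hfr : Int.fract (-x) < ε := by
    have h5 : -x = (-(U / Real.log 2 - b₀ * θ) + i * δ) + ((i * round ((k : ℝ) * θ) : ℤ) : ℝ) := by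
      rw [hx, hb, hδ]
      push_cast
      ring
    rw [h5, Int.fract_add_intCast]
    exact hi'
  have hx0 : 0 ≤ x := by
    rw [hx, hθ]
    have h6 : (b : ℝ) * Real.log 3 ≤ U := by
      refine le_trans (mul_le_mul_of_nonneg_right ?_ h3.le) hU
      exact_mod_cast hbL.le
    have h7 : U / Real.log 2 - b * (Real.log 3 / Real.log 2) =
        (U - b * Real.log 3) / Real.log 2 := by ring
    rw [h7]
    exact div_nonneg (by linarith) h2.le
  have h8 : x ≤ ⌈x⌉ := Int.le_ceil x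
  have h9 : 0 ≤ ⌈x⌉ := by
    have : (0 : ℝ) ≤ (⌈x⌉ : ℤ) := hx0.trans h8
    exact_mod_cast this
  obtain ⟨a, ha⟩ := Int.eq_ofNat_of_zero_le h9
  have ha' : (⌈x⌉ : ℝ) = a := by rw [ha]; simp
  have h10 : Int.fract (-x) = a - x := by
    rw [← ha']
    unfold Int.fract
    rw [Int.floor_neg]
    push_cast
    ring
  refine ⟨a, b, by omega, hbL, ?_, ?_⟩
  · have h11 : x ≤ a := by rw [← ha']; exact h8
    rw [hx, hθ] at h11
    have h12 := mul_le_mul_of_nonneg_right h11 h2.le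
    have h13 : (U / Real.log 2 - b * (Real.log 3 / Real.log 2)) * Real.log 2 =
        U - b * Real.log 3 := by field_simp
    rw [h13] at h12
    linarith
  · rw [h10, hx, hθ, hε] at hfr
    have h12 := mul_lt_mul_of_pos_right hfr h2
    have h13 : (a - (U / Real.log 2 - b * (Real.log 3 / Real.log 2))) * Real.log 2 =
        a * Real.log 2 - (U - b * Real.log 3) := by field_simp
    have h14 : η / Real.log 2 * Real.log 2 = η := by field_simp
    rw [h13, h14] at h12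
    linarith

/-- the version with congruences -/
theorem window_mod {η : ℝ} (hη : 0 < η) (m : ℕ) (hm : 0 < m) : ∃ U₀ : ℝ, ∀ U : ℝ, U₀ ≤ U →
    ∀ α β : ℕ, α < m → β < m → ∃ a b : ℕ, a % m = α ∧ b % m = β ∧
      U ≤ a * Real.log 2 + b * Real.log 3 ∧ a * Real.log 2 + b * Real.log 3 < U + η := by
  have h2 : (0 : ℝ) < Real.log 2 := Real.log_pos (by norm_num)
  have h3 : (0 : ℝ) < Real.log 3 := Real.log_pos (by norm_num)
  have hm' : (0 : ℝ) < m := by exact_mod_cast hm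
  obtain ⟨L, hL, h⟩ := window (η := η / m) (by positivity)
  refine ⟨m * (L * Real.log 3) + m * Real.log 2 + m * Real.log 3, fun U hU α β hα hβ => ?_⟩
  have hα' : (α : ℝ) ≤ m := by exact_mod_cast hα.le
  have hβ' : (β : ℝ) ≤ m := by exact_mod_cast hβ.le
  obtain ⟨a, b, -, -, h4, h5⟩ := h ((U - α * Real.log 2 - β * Real.log 3) / m) 0 (by
    rw [le_div_iff₀ hm']
    have h6 := mul_le_mul_of_nonneg_right hα' h2.le
    have h7 := mul_le_mul_of_nonneg_right hβ' h3.le
    push_cast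
    linarith)
  refine ⟨α + m * a, β + m * b, ?_, ?_, ?_, ?_⟩
  · rw [Nat.add_mul_mod_self_left, Nat.mod_eq_of_lt hα]
  · rw [Nat.add_mul_mod_self_left, Nat.mod_eq_of_lt hβ]
  · rw [div_le_iff₀ hm'] at h4
    push_cast
    linarith
  · have h8 : (U - α * Real.log 2 - β * Real.log 3) / m + η / m =
        (U - α * Real.log 2 - β * Real.log 3 + η) / m := by ring
    rw [h8, lt_div_iff₀ hm'] at h5
    push_cast
    linarith

/-- windows for the numbers themselves -/
theorem su_window {η U : ℝ} {a b : ℕ} (h1 : U ≤ a * Real.log 2 + b * Real.log 3)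
    (h2 : a * Real.log 2 + b * Real.log 3 < U + η) :
    Real.exp U ≤ su (a, b) ∧ (su (a, b) : ℝ) < Real.exp η * Real.exp U := by
  have h3 : (0 : ℝ) < su (a, b) := by exact_mod_cast su_pos (a, b)
  rw [← Real.exp_add, ← Real.log_lt_iff_lt_exp h3, ← Real.le_log_iff_exp_le h3, log_su]
  exact ⟨h1, by linarith⟩

end Helper13.MX
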