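import Pool.Agent.Helper13.MX.Block
import Pool.Agent.Helper13.MX.Win

/-!
# Three blocks in narrow windows

`blocks`: if a character mixes to order four at a summable rate then the sets of points at which two
of three means over disjoint blocks of the window of `4 ^ j` are far from the limit have summable
measures.
-/

set_option autoImplicit false

open MeasureTheory Finset Filter Topology

namespace Helper13.MX

/-! ### Distances and blocks -/

/-- the distance in `ℕ × ℕ` -/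
noncomputable def dd (p q : ℕ × ℕ) : ℝ := |(p.1 : ℝ) - q.1| + |(p.2 : ℝ) - q.2|

lemma dd_self (p : ℕ × ℕ) : dd p p = 0 := by
  unfold dd
  simp

/-- the window of `4 ^ j` -/
def InWin (η : ℝ) (j : ℕ) (p : ℕ × ℕ) : Prop :=
  (4 : ℝ) ^ j ≤ su p ∧ (su p : ℝ) < Real.exp η * 4 ^ j

lemma inWin_log {η : ℝ} {j : ℕ} {p : ℕ × ℕ} (h : InWin η j p) :
    (j : ℝ) * Real.log 4 ≤ p.1 * Real.log 2 + p.2 * Real.log 3 ∧
      p.1 * Real.log 2 + p.2 * Real.log 3 < j * Real.log 4 + η := by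
  have h0 : (0 : ℝ) < su p := by exact_mod_cast su_pos p
  have h1 := Real.log_le_log (by positivity) h.1
  have h2 := Real.log_lt_log h0 h.2
  rw [Real.log_pow, log_su] at h1
  rw [Real.log_mul (Real.exp_pos _).ne' (by positivity), Real.log_exp, Real.log_pow, log_su] at h2
  exact ⟨h1, by linarith⟩

lemma log3_lt : Real.log 3 < (8 / 5 : ℝ) * Real.log 2 := by
  have h1 : Real.log ((3 : ℝ) ^ 5) < Real.log ((2 : ℝ) ^ 8) :=
    Real.log_lt_log (by norm_num) (by norm_num)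
  rw [Real.log_pow, Real.log_pow] at h1
  push_cast at h1
  linarith

/-- in a window the second coordinate controls the distance -/
lemma dd_le {η : ℝ} (hη : η ≤ 1 / 2) {j : ℕ} {p q : ℕ × ℕ} (hp : InWin η j p) (hq : InWin η j q) :
    dd p q ≤ 4 * |(p.2 : ℝ) - q.2| ∧ (p.2 = q.2 → p = q) := by
  obtain ⟨hp1, hp2⟩ := inWin_log hp
  obtain ⟨hq1, hq2⟩ := inWin_log hq
  have h2 : (0 : ℝ) < Real.log 2 := Real.log_pos (by norm_num)
  have h2' : (1 / 2 : ℝ) < Real.log 2 := by linarith [Real.log_two_gt_d9]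
  have h3 : (0 : ℝ) < Real.log 3 := Real.log_pos (by norm_num)
  have h3' := log3_lt
  have h4 : |((p.1 : ℝ) - q.1) * Real.log 2 + ((p.2 : ℝ) - q.2) * Real.log 3| < η := by
    rw [abs_lt]
    constructor <;> linarith
  have h5 : |(p.1 : ℝ) - q.1| * Real.log 2 < η + |(p.2 : ℝ) - q.2| * Real.log 3 := by
    have h6 : |((p.1 : ℝ) - q.1) * Real.log 2| ≤
        |((p.1 : ℝ) - q.1) * Real.log 2 + ((p.2 : ℝ) - q.2) * Real.log 3| +
          |((p.2 : ℝ) - q.2) * Real.log 3| := by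
      have h7 := abs_sub (((p.1 : ℝ) - q.1) * Real.log 2 + ((p.2 : ℝ) - q.2) * Real.log 3)
        (((p.2 : ℝ) - q.2) * Real.log 3)
      rwa [add_sub_cancel_right] at h7
    rw [abs_mul, abs_mul, abs_of_pos h2, abs_of_pos h3] at h6
    linarith
  have h6 : p.2 = q.2 → p = q := by
    intro h
    have h7 : |(p.1 : ℝ) - q.1| < 1 := by
      rw [h, sub_self, abs_zero, zero_mul, add_zero] at h5
      by_contra hcon
      push Not at hcon
      have := mul_le_mul_of_nonneg_right hcon h2.le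
      linarith
    have h8 : |((p.1 : ℤ) - q.1 : ℤ)| < 1 := by exact_mod_cast h7
    rw [Int.abs_lt_one_iff] at h8
    exact Prod.ext (by omega) h
  refine ⟨?_, h6⟩
  by_cases h7 : p.2 = q.2
  · rw [h6 h7, dd_self]
    simp
  · have h8 : (1 : ℝ) ≤ |(p.2 : ℝ) - q.2| := by
      have h9 : (1 : ℤ) ≤ |((p.2 : ℤ) - q.2 : ℤ)| := by
        exact Int.one_le_abs (by omega)
      exact_mod_cast h9
    unfold dd
    by_contra hcon
    push Not at hcon
    have h9 : 3 * |(p.2 : ℝ) - q.2| < |(p.1 : ℝ) - q.1| := by linarith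
    have h10 := mul_lt_mul_of_pos_right h9 h2
    have h11 : |(p.2 : ℝ) - q.2| * Real.log 3 ≤ |(p.2 : ℝ) - q.2| * ((8 / 5 : ℝ) * Real.log 2) :=
      mul_le_mul_of_nonneg_left h3'.le (abs_nonneg _)
    have h12 : Real.log 2 ≤ |(p.2 : ℝ) - q.2| * Real.log 2 := by
      have := mul_le_mul_of_nonneg_right h8 h2.le
      linarith
    linarith

lemma snd_le_dd (p q : ℕ × ℕ) : |(p.2 : ℝ) - q.2| ≤ dd p q := by
  unfold dd
  linarith [abs_nonneg ((p.1 : ℝ) - q.1)]

open Classical in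
/-- the points of the window with second coordinate in `[b, b + w)` -/
noncomputable def blk (η : ℝ) (j b w : ℕ) : Finset (ℕ × ℕ) :=
  ((range (2 * j + 2)) ×ˢ (Ico b (b + w))).filter fun p => InWin η j p

lemma mem_blk {η : ℝ} (hη : η ≤ 1 / 2) {j b w : ℕ} {p : ℕ × ℕ} :
    p ∈ blk η j b w ↔ InWin η j p ∧ b ≤ p.2 ∧ p.2 < b + w := by
  simp only [blk, mem_filter, mem_product, mem_range, mem_Ico]
  constructor
  · rintro ⟨⟨_, h2, h3⟩, h⟩
    exact ⟨h, h2, h3⟩
  · rintro ⟨h, h2, h3⟩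
    refine ⟨⟨?_, h2, h3⟩, h⟩
    obtain ⟨-, h4⟩ := inWin_log h
    have h5 : (0 : ℝ) < Real.log 2 := Real.log_pos (by norm_num)
    have h6 : (1 / 2 : ℝ) < Real.log 2 := by linarith [Real.log_two_gt_d9]
    have h7 : (0 : ℝ) < Real.log 3 := Real.log_pos (by norm_num)
    have h8 : Real.log 4 = 2 * Real.log 2 := by
      rw [show (4 : ℝ) = 2 ^ 2 by norm_num, Real.log_pow]
      push_cast
      ring
    have h9 : (0 : ℝ) ≤ p.2 * Real.log 3 := by positivity
    rw [h8] at h4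
    have h10 : (p.1 : ℝ) * Real.log 2 < (2 * j + 1) * Real.log 2 := by linarith
    have h11 : (p.1 : ℝ) < 2 * j + 1 := lt_of_mul_lt_mul_right h10 h5.le
    have h12 : p.1 < 2 * j + 1 := by exact_mod_cast h11
    omega

lemma card_blk {η : ℝ} (hη : η ≤ 1 / 2) {L : ℕ}
    (h : ∀ (U : ℝ) (b₀ : ℕ), ((b₀ : ℝ) + L) * Real.log 3 ≤ U → ∃ a b : ℕ, b₀ ≤ b ∧ b < b₀ + L ∧
      U ≤ a * Real.log 2 + b * Real.log 3 ∧ a * Real.log 2 + b * Real.log 3 < U + η)
    {j b w : ℕ} (hb : ((b : ℝ) + w) * Real.log 3 ≤ j * Real.log 4) :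
    w / L ≤ (blk η j b w).card := by
  have h3 : (0 : ℝ) < Real.log 3 := Real.log_pos (by norm_num)
  have hex : ∀ s : ℕ, ∃ p : ℕ × ℕ, s < w / L → p ∈ blk η j b w ∧ b + s * L ≤ p.2 ∧
      p.2 < b + s * L + L := by
    intro s
    by_cases hs : s < w / L
    · have h4 : s * L + L ≤ w := by
        have h5 : (s + 1) * L ≤ w / L * L := Nat.mul_le_mul_right L hs
        have h6 := Nat.div_mul_le_self w L
        nlinarith
      obtain ⟨a, b', h5, h6, h7, h8⟩ := h (j * Real.log 4) (b + s * L) (by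
        refine le_trans (mul_le_mul_of_nonneg_right ?_ h3.le) hb
        have : ((b + s * L : ℕ) : ℝ) + L = ((b + (s * L + L) : ℕ) : ℝ) := by
          push_cast
          ring
        rw [this]
        exact_mod_cast Nat.add_le_add_left h4 b)
      refine ⟨(a, b'), fun _ => ⟨?_, h5, h6⟩⟩
      rw [mem_blk hη]
      obtain ⟨h9, h10⟩ := su_window h7 h8
      have h11 : Real.exp (j * Real.log 4) = (4 : ℝ) ^ j := by
        rw [mul_comm, Real.exp_mul, Real.exp_log (by norm_num), Real.rpow_natCast]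
      rw [h11] at h9 h10
      exact ⟨⟨h9, h10⟩, by simp only; omega, by simp only; omega⟩
    · exact ⟨(0, 0), fun h => absurd h hs⟩
  choose p hp using hex
  have h5 : (range (w / L)).card ≤ (blk η j b w).card := by
    refine card_le_card_of_injOn p (fun s hs => (hp s (mem_range.1 hs)).1) ?_
    intro s hs t ht hst
    obtain ⟨-, h6, h7⟩ := hp s (mem_range.1 hs)
    obtain ⟨-, h8, h9⟩ := hp t (mem_range.1 ht)
    rw [hst] at h6 h7
    rcases lt_trichotomy s t with h10 | h10 | h10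
    · have : (s + 1) * L ≤ t * L := Nat.mul_le_mul_right L h10
      nlinarith
    · exact h10
    · have : (t + 1) * L ≤ s * L := Nat.mul_le_mul_right L h10
      nlinarith
  rwa [card_range] at h5

/-! ### Sums of the rate -/

lemma sum_rate_nat {ρ : ℕ → ℝ} (hρ0 : ∀ n, 0 ≤ ρ n) (hρs : Summable ρ) (T : Finset ℕ) (b : ℕ) :
    ∑ n ∈ T, ρ (Nat.dist b n) ≤ 2 * ∑' n, ρ n := by
  classical
  rw [← sum_filter_add_sum_filter_not T (fun n => n ≤ b), two_mul]
  refine add_le_add ?_ ?_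
  · have h2 : Set.InjOn (fun n : ℕ => b - n) (T.filter fun n => n ≤ b : Finset ℕ) := by
      intro m hm n hn h
      have h3 := (mem_filter.1 (mem_coe.1 hm)).2
      have h4 := (mem_filter.1 (mem_coe.1 hn)).2
      simp only at h
      omega
    calc ∑ n ∈ T.filter (fun n => n ≤ b), ρ (Nat.dist b n)
        = ∑ n ∈ T.filter (fun n => n ≤ b), ρ (b - n) := by
          refine sum_congr rfl fun n hn => ?_
          rw [Nat.dist_eq_sub_of_le_right (mem_filter.1 hn).2]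
      _ = ∑ m ∈ (T.filter fun n => n ≤ b).image (fun n : ℕ => b - n), ρ m := by
          rw [sum_image h2]
      _ ≤ ∑' n, ρ n := hρs.sum_le_tsum _ fun n _ => hρ0 n
  · have h2 : Set.InjOn (fun n : ℕ => n - b) (T.filter fun n => ¬ n ≤ b : Finset ℕ) := by
      intro m hm n hn h
      have h3 := (mem_filter.1 (mem_coe.1 hm)).2
      have h4 := (mem_filter.1 (mem_coe.1 hn)).2
      simp only at h
      omega
    calc ∑ n ∈ T.filter (fun n => ¬ n ≤ b), ρ (Nat.dist b n)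
        = ∑ n ∈ T.filter (fun n => ¬ n ≤ b), ρ (n - b) := by
          refine sum_congr rfl fun n hn => ?_
          rw [Nat.dist_eq_sub_of_le (by have := (mem_filter.1 hn).2; omega)]
      _ = ∑ m ∈ (T.filter fun n => ¬ n ≤ b).image (fun n : ℕ => n - b), ρ m := by
          rw [sum_image h2]
      _ ≤ ∑' n, ρ n := hρs.sum_le_tsum _ fun n _ => hρ0 n

lemma sum_rate_le {ρ : ℕ → ℝ} (hρ0 : ∀ n, 0 ≤ ρ n) (hρs : Summable ρ) (F : Finset (ℕ × ℕ))
    (hF : ∀ p ∈ F, ∀ q ∈ F, p.2 = q.2 → p = q) (b : ℕ) :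
    ∑ q ∈ F, ρ (Nat.dist b q.2) ≤ 2 * ∑' n, ρ n := by
  classical
  have hinj : Set.InjOn (fun q : ℕ × ℕ => q.2) F := fun p hp q hq h => hF p hp q hq h
  have h1 : ∑ q ∈ F, ρ (Nat.dist b q.2) = ∑ n ∈ F.image (fun q : ℕ × ℕ => q.2), ρ (Nat.dist b n) := by
    rw [sum_image hinj]
  rw [h1]
  exact sum_rate_nat hρ0 hρs _ b

lemma summable_div {ρ : ℕ → ℝ} (hρ0 : ∀ n, 0 ≤ ρ n) (hρs : Summable ρ) {m : ℕ} (hm : 0 < m) :
    Summable fun j : ℕ => ρ (j / m) := by
  refine summable_of_sum_range_le (c := m * ∑' n, ρ n) (fun n => hρ0 _) fun n => ?_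
  have h1 : ∀ k : ℕ, ∑ j ∈ range (m * k), ρ (j / m) = m * ∑ i ∈ range k, ρ i := by
    intro k
    induction k with
    | zero => simp
    | succ k ih =>
      rw [mul_add, mul_one, sum_range_add, ih, sum_range_succ, mul_add]
      congr 1
      have h2 : ∀ x ∈ range m, ρ ((m * k + x) / m) = ρ k := by
        intro x hx
        rw [Nat.mul_add_div hm, Nat.div_eq_of_lt (mem_range.1 hx), add_zero]
      rw [sum_congr rfl h2, sum_const, card_range, nsmul_eq_mul]
  calc ∑ j ∈ range n, ρ (j / m) ≤ ∑ j ∈ range (m * n), ρ (j / m) :=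
        sum_le_sum_of_subset_of_nonneg (range_subset_range.2 (Nat.le_mul_of_pos_left n hm))
          fun j _ _ => hρ0 _
    _ = m * ∑ i ∈ range n, ρ i := h1 n
    _ ≤ m * ∑' n, ρ n := by
        refine mul_le_mul_of_nonneg_left ?_ (by positivity)
        exact hρs.sum_le_tsum _ fun n _ => hρ0 n

/-- the width of the blocks -/
noncomputable def wd (γ : ℝ) (m j : ℕ) : ℕ := ⌊((j / m : ℕ) : ℝ) ^ γ / 4⌋₊

lemma wd_le {γ : ℝ} (m j : ℕ) : 4 * (wd γ m j : ℝ) ≤ ((j / m : ℕ) : ℝ) ^ γ := by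
  have h1 : (wd γ m j : ℝ) ≤ ((j / m : ℕ) : ℝ) ^ γ / 4 := Nat.floor_le (by positivity)
  linarith

lemma growth {γ : ℝ} (hγ : 1 / 2 < γ) (hγ1 : γ ≤ 1) {L : ℕ} (hL : 0 < L) {m : ℕ} (hm : 0 < m) :
    ∀ᶠ j : ℕ in atTop, 1 ≤ j / m ∧ 1 ≤ wd γ m j / L ∧
      1 / ((wd γ m j / L : ℕ) : ℝ) ^ 2 ≤
        (64 * L ^ 2 * (4 * m ^ 2)) * (1 / (j : ℝ) ^ (2 * γ)) := by
  have hL' : (0 : ℝ) < L := by exact_mod_cast hL
  have hm' : (0 : ℝ) < m := by exact_mod_cast hm
  have ht : Tendsto (fun j : ℕ => ((j / m : ℕ) : ℝ) ^ γ) atTop atTop :=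
    (tendsto_rpow_atTop (by linarith)).comp
      (tendsto_natCast_atTop_atTop.comp (Nat.tendsto_div_const_atTop hm.ne'))
  filter_upwards [ht.eventually_ge_atTop (8 * (L + 1)), eventually_ge_atTop m] with j h1 h2
  obtain ⟨D, hD⟩ : ∃ D : ℕ, D = j / m := ⟨_, rfl⟩
  obtain ⟨X, hX⟩ : ∃ X : ℝ, X = (D : ℝ) ^ γ / 4 := ⟨_, rfl⟩
  have hD1 : 1 ≤ D := by
    rw [hD]
    exact (Nat.one_le_div_iff hm).2 h2
  rw [← hD] at h1 ⊢
  have hX1 : 2 * (L + 1) ≤ X := by rw [hX]; linarith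
  have hw : wd γ m j = ⌊X⌋₊ := by
    unfold wd
    rw [hX, hD]
  have h3 : X - 1 < (wd γ m j : ℝ) := by
    rw [hw]
    exact Nat.sub_one_lt_floor X
  have h4 : (wd γ m j : ℝ) < L * ((wd γ m j / L : ℕ) : ℝ) + L := by
    have h5 := Nat.div_add_mod (wd γ m j) L
    have h6 := Nat.mod_lt (wd γ m j) hL
    have h7 : wd γ m j < L * (wd γ m j / L) + L := by omega
    exact_mod_cast h7
  have h5 : X / (2 * L) ≤ ((wd γ m j / L : ℕ) : ℝ) := by
    rw [div_le_iff₀ (by positivity)]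
    nlinarith
  have hX0 : 0 < X / (2 * L) := div_pos (by linarith) (by positivity)
  have h6 : (0 : ℝ) < ((wd γ m j / L : ℕ) : ℝ) := lt_of_lt_of_le hX0 h5
  refine ⟨hD1, by exact_mod_cast h6, ?_⟩
  have h7 : 1 / ((wd γ m j / L : ℕ) : ℝ) ^ 2 ≤ 1 / (X / (2 * L)) ^ 2 :=
    one_div_le_one_div_of_le (by positivity) (pow_le_pow_left₀ hX0.le h5 2)
  refine h7.trans ?_
  have hD12 : (j : ℝ) / (2 * m) ≤ D := by
    have h8 : j ≤ 2 * m * D := by
      have h9 := Nat.div_add_mod j m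
      have h10 := Nat.mod_lt j hm
      rw [← hD] at h9
      nlinarith
    have h9 : (j : ℝ) ≤ 2 * m * D := by exact_mod_cast h8
    rw [div_le_iff₀ (by positivity)]
    linarith
  have hj0 : (0 : ℝ) < j := by
    have : 0 < j := by omega
    exact_mod_cast this
  have h8 : (j : ℝ) ^ (2 * γ) / (4 * m ^ 2) ≤ (D : ℝ) ^ (2 * γ) := by
    have h9 : ((j : ℝ) / (2 * m)) ^ (2 * γ) ≤ (D : ℝ) ^ (2 * γ) :=
      Real.rpow_le_rpow (by positivity) hD12 (by linarith)
    refine le_trans ?_ h9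
    rw [Real.div_rpow hj0.le (by positivity)]
    refine div_le_div_of_nonneg_left (by positivity) (by positivity) ?_
    have hm1 : (1 : ℝ) ≤ m := by exact_mod_cast hm
    calc (2 * m : ℝ) ^ (2 * γ) ≤ (2 * m : ℝ) ^ (2 : ℝ) :=
          Real.rpow_le_rpow_of_exponent_le (by linarith) (by linarith)
      _ = 4 * m ^ 2 := by
          rw [Real.rpow_two]
          ring
  have h9 : (X / (2 * L)) ^ 2 = (D : ℝ) ^ (2 * γ) / (64 * L ^ 2) := by
    rw [hX, mul_comm 2 γ, Real.rpow_mul (by positivity)]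
    rw [show ((D : ℝ) ^ γ) ^ (2 : ℝ) = ((D : ℝ) ^ γ) ^ 2 from Real.rpow_two _]
    field_simp
    ring
  rw [h9]
  have h10 : (0 : ℝ) < (j : ℝ) ^ (2 * γ) := by positivity
  have h11 : (0 : ℝ) < (D : ℝ) ^ (2 * γ) := lt_of_lt_of_le (by positivity) h8
  rw [one_div_div, mul_one_div, div_le_div_iff₀ h11 h10]
  rw [div_le_iff₀ (by positivity)] at h8
  have h12 : (0 : ℝ) < 64 * (L : ℝ) ^ 2 := by positivity
  nlinarith

lemma summable_growth {γ : ℝ} (hγ : 1 / 2 < γ) (C : ℝ) :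
    Summable fun j : ℕ => C * (1 / (j : ℝ) ^ (2 * γ)) :=
  (Real.summable_one_div_nat_rpow.2 (by linarith)).mul_left C

end Helper13.MX
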