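import Pool.Agent.Helper87.MX.Fr5

/-!
# MixingRates: the normalised non-atomic part of an invariant measure (S_NA)
-/

set_option autoImplicit false

open MeasureTheory Finset Filter Function

namespace Pool.Agent.Helper13.MX

open Pool.Agent.Helper87.MX

theorem countable_atoms (μ : Measure Tor) [IsProbabilityMeasure μ] :
    {x : Tor | 0 < μ {x}}.Countable :=
  Measure.countable_meas_pos_of_disjoint_iUnion (μ := μ) (As := fun x : Tor => {x})
    (fun x => measurableSet_singleton x) (fun _ _ hxy => Set.disjoint_singleton.2 hxy)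

theorem measurableSet_nonatoms (μ : Measure Tor) [IsProbabilityMeasure μ] :
    MeasurableSet {x : Tor | μ {x} = 0} := by
  have h : {x : Tor | μ {x} = 0} = {x : Tor | 0 < μ {x}}ᶜ := by
    ext x
    simp [pos_iff_ne_zero]
  rw [h]
  exact (countable_atoms μ).measurableSet.compl

theorem preimage_nonatoms (μ : Measure Tor) [IsProbabilityMeasure μ] {g : ℕ} (h : Inv g μ) :
    ((fun x : Tor => g • x) ⁻¹' {x : Tor | μ {x} = 0} : Set Tor) =ᵐ[μ] {x : Tor | μ {x} = 0} := by
  have hsub : ((fun x : Tor => g • x) ⁻¹' {x : Tor | μ {x} = 0} : Set Tor) ⊆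
      {x : Tor | μ {x} = 0} := by
    intro x hx
    have hx' : μ {g • x} = 0 := hx
    have h1 : μ ((fun x : Tor => g • x) ⁻¹' {g • x}) = μ {g • x} :=
      h.measure_preimage (measurableSet_singleton _).nullMeasurableSet
    have h2 : μ {x} ≤ μ ((fun x : Tor => g • x) ⁻¹' {g • x}) := by
      apply measure_mono
      rintro y rfl
      exact rfl
    rw [h1, hx'] at h2
    exact le_antisymm h2 bot_le
  exact ae_eq_of_subset_of_measure_ge hsub
    (h.measure_preimage (measurableSet_nonatoms μ).nullMeasurableSet).ge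
    (h.measurable (measurableSet_nonatoms μ)).nullMeasurableSet (measure_ne_top _ _)

/-- NA: the normalised non-atomic part -/
theorem s_NA : S_NA := by
  intro μ hμ h2 h3 h0
  set N : Set Tor := {x | μ {x} = 0} with hN
  have hNm : MeasurableSet N := measurableSet_nonatoms μ
  have hfin : μ N ≠ ⊤ := measure_ne_top _ _
  have hinv : ∀ g : ℕ, Inv g μ → Inv g ((μ N)⁻¹ • μ.restrict N) := by
    intro g hg
    have h1 : MeasurePreserving (fun x : Tor => g • x)
        (μ.restrict ((fun x : Tor => g • x) ⁻¹' N)) (μ.restrict N) := hg.restrict_preimage hNm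
    rw [Measure.restrict_congr_set (preimage_nonatoms μ hg)] at h1
    exact h1.smul_measure _
  refine ⟨(μ N)⁻¹ • μ.restrict N, ⟨?_⟩, hinv 2 h2, hinv 3 h3, fun x => ?_,
    (μ.real N)⁻¹, inv_nonneg.2 measureReal_nonneg, fun B => ?_⟩
  · rw [Measure.smul_apply, Measure.restrict_apply_univ, smul_eq_mul]
    exact ENNReal.inv_mul_cancel h0 hfin
  · rw [Measure.smul_apply, Measure.restrict_apply (measurableSet_singleton x), smul_eq_mul]
    have h1 : μ ({x} ∩ N) = 0 := by
      by_cases hx : x ∈ N
      · have hx' : μ {x} = 0 := hx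
        exact measure_mono_null Set.inter_subset_left hx'
      · have : ({x} ∩ N : Set Tor) = ∅ := by
          ext y
          constructor
          · rintro ⟨rfl, hy⟩
            exact hx hy
          · intro hy
            exact hy.elim
        rw [this, measure_empty]
    rw [h1, mul_zero]
  · have h1 : (μ.restrict N) B ≤ μ B := Measure.restrict_le_self B
    have h2 : ((μ.restrict N) B).toReal ≤ (μ B).toReal :=
      ENNReal.toReal_mono (measure_ne_top _ _) h1
    show (((μ N)⁻¹ • μ.restrict N) B).toReal ≤ (μ N).toReal⁻¹ * (μ B).toReal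
    rw [Measure.smul_apply, smul_eq_mul, ENNReal.toReal_mul, ENNReal.toReal_inv]
    exact mul_le_mul_of_nonneg_left h2 (inv_nonneg.2 ENNReal.toReal_nonneg)

end Pool.Agent.Helper13.MX
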