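import Pool.Agent.Helper27.MX.CF
import Pool.Agent.Helper87.MX.Fr3

/-!
# MixingRates: measures of finite support have a coefficient equal to one (statement `S_RG3`)
-/

set_option autoImplicit false

open MeasureTheory Finset Filter

namespace Helper13.MXRG

open Pool.Agent.Helper87.MX (Tor cf Inv S_RG3)
open Pool.Agent.Helper27.MX (At At_finite ae_At periodic)

theorem s_RG3 : S_RG3 := by
  intro μ hμ h2 hfin
  obtain ⟨Z, hZ, hZ0⟩ := hfin
  obtain ⟨n₀, m, hm, hper⟩ := periodic h2 (At_finite hZ hZ0)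
  have hlt : 2 ^ n₀ < 2 ^ (n₀ + m) := Nat.pow_lt_pow_right (by norm_num) (by omega)
  refine ⟨2 ^ (n₀ + m) - 2 ^ n₀, by omega, ?_⟩
  have h1 : ∀ᵐ x ∂μ, (fourier ((2 ^ (n₀ + m) - 2 ^ n₀ : ℕ) : ℤ) x : ℂ) = 1 := by
    filter_upwards [ae_At hZ hZ0] with x hx
    have h3 := hper x hx 1
    rw [mul_one] at h3
    have h4 : ((2 ^ (n₀ + m) - 2 ^ n₀ : ℕ) : ℤ) • x = 0 := by
      rw [natCast_zsmul]
      have h5 : (2 ^ (n₀ + m) - 2 ^ n₀) • x + (2 ^ n₀) • x = (2 ^ n₀) • x := by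
        rw [← add_smul, Nat.sub_add_cancel hlt.le]
        exact h3
      exact add_eq_right.1 h5
    rw [fourier_apply, h4]
    simp
  show ∫ x, (fourier ((2 ^ (n₀ + m) - 2 ^ n₀ : ℕ) : ℤ) x : ℂ) ∂μ = 1
  rw [integral_congr_ae h1, integral_const, probReal_univ, one_smul]

end Helper13.MXRG
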