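import Pool.Agent.Helper13.MX.Blocks

/-!
# Three blocks in a row

`rows`: if a sequence of characters mixes to order four at a summable rate, then the sets of points
at which two of three means over far blocks are far from the limit have summable measures.
-/

set_option autoImplicit false

open MeasureTheory Finset Filter Topology

namespace Helper13.MX

variable {X : Type*} [MeasurableSpace X] {μ : Measure X} [IsProbabilityMeasure μ]
  {u : ℕ → X → ℂ} {c : ℂ}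

/-- mixing of order four at the rate `ρ` -/
def Mix4 (μ : Measure X) (u : ℕ → X → ℂ) (γ : ℝ) (ρ : ℕ → ℝ) : Prop :=
  ∀ (D : ℕ) (a b : (Bool × ℕ) × (Bool × ℕ)),
    |(a.1.2 : ℝ) - a.2.2| ≤ (D : ℝ) ^ γ → |(b.1.2 : ℝ) - b.2.2| ≤ (D : ℝ) ^ γ →
    (D : ℝ) ≤ |(a.1.2 : ℝ) - b.1.2| → (D : ℝ) ≤ |(a.1.2 : ℝ) - b.2.2| →
    (D : ℝ) ≤ |(a.2.2 : ℝ) - b.1.2| → (D : ℝ) ≤ |(a.2.2 : ℝ) - b.2.2| →
    ‖∫ x, tm u a x * tm u b x ∂μ - (∫ x, tm u a x ∂μ) * ∫ x, tm u b x ∂μ‖ ≤ ρ D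

lemma cast_dist (p q : ℕ) : ((Nat.dist p q : ℕ) : ℝ) = |(p : ℝ) - q| := by
  rcases le_total p q with h | h
  · rw [Nat.dist_eq_sub_of_le h, Nat.cast_sub h, abs_sub_comm, abs_of_nonneg]
    have : (p : ℝ) ≤ q := by exact_mod_cast h
    linarith
  · rw [Nat.dist_eq_sub_of_le_right h, Nat.cast_sub h, abs_of_nonneg]
    have : (q : ℝ) ≤ p := by exact_mod_cast h
    linarith

omit [IsProbabilityMeasure μ] in
lemma two_point (h : Good μ u c) {γ : ℝ} {ρ : ℕ → ℝ} (hmix : Mix4 μ u γ ρ) (p q : ℕ) :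
    ‖∫ x, u p x * star (u q x) ∂μ - (‖c‖ : ℂ) ^ 2‖ ≤ ρ (Nat.dist p q) := by
  have h0 : (0 : ℝ) ≤ ((Nat.dist p q : ℕ) : ℝ) ^ γ := by positivity
  have h1 := hmix (Nat.dist p q) ((true, p), (false, p)) ((false, q), (true, q))
    (by simp only [sub_self, abs_zero]; exact h0) (by simp only [sub_self, abs_zero]; exact h0)
    (by rw [cast_dist]) (by rw [cast_dist]) (by rw [cast_dist]) (by rw [cast_dist])
  have e1 : ∀ x, tm u ((true, p), (false, p)) x = u p x := fun x => by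
    simp [tm, ext]
  have e2 : ∀ x, tm u ((false, q), (true, q)) x = star (u q x) := fun x => by
    simp [tm, ext]
  simp only [e1, e2] at h1
  have e3 : ∫ x, star (u q x) ∂μ = star c := by
    have h2 : ∫ x, star (u q x) ∂μ = star (∫ x, u q x ∂μ) := integral_conj
    rw [h2, h.int q]
  rw [h.int p, e3, Complex.star_def, Complex.mul_conj, Complex.normSq_eq_norm_sq] at h1
  push_cast at h1
  exact h1

/-- the sets where two of three means are far from the limit -/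
def bad2 (u : ℕ → X → ℂ) (c : ℂ) (δ : ℝ) (F : Fin 3 → Finset ℕ) : Set X :=
  {x | ∃ i l : Fin 3, i ≠ l ∧ δ ≤ ‖mean u (F i) x / c - 1‖ ∧ δ ≤ ‖mean u (F l) x / c - 1‖}

lemma bad2_le (h : Good μ u c) {F : Fin 3 → Finset ℕ} (hF : ∀ i, (F i).Nonempty) {δ B : ℝ}
    (hδ : 0 < δ) (hB : ∀ i l, i ≠ l → ∫ x, dev u c (F i) x * dev u c (F l) x ∂μ ≤ B) :
    μ.real (bad2 u c δ F) ≤ 9 * (B / δ ^ 4) := by
  have hB0 : 0 ≤ B := by
    refine le_trans ?_ (hB 0 1 (by decide))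
    exact integral_nonneg fun x => mul_nonneg (dev_nonneg _ _ _ _) (dev_nonneg _ _ _ _)
  have h1 : bad2 u c δ F ⊆ ⋃ z ∈ (Finset.univ : Finset (Fin 3 × Fin 3)),
      {x | z.1 ≠ z.2 ∧ δ ^ 4 ≤ dev u c (F z.1) x * dev u c (F z.2) x} := by
    rintro x ⟨i, l, hil, h2, h3⟩
    rw [Set.mem_iUnion₂]
    refine ⟨(i, l), mem_univ _, hil, ?_⟩
    unfold dev
    calc δ ^ 4 = δ ^ 2 * δ ^ 2 := by ring
      _ ≤ _ := mul_le_mul (pow_le_pow_left₀ hδ.le h2 2) (pow_le_pow_left₀ hδ.le h3 2)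
          (by positivity) (by positivity)
  have h2 : ∀ z ∈ (Finset.univ : Finset (Fin 3 × Fin 3)),
      μ.real {x | z.1 ≠ z.2 ∧ δ ^ 4 ≤ dev u c (F z.1) x * dev u c (F z.2) x} ≤ B / δ ^ 4 := by
    intro z _
    by_cases hz : z.1 = z.2
    · have h3 : {x | z.1 ≠ z.2 ∧ δ ^ 4 ≤ dev u c (F z.1) x * dev u c (F z.2) x} = ∅ := by
        ext x
        simp [hz]
      rw [h3, measureReal_empty]
      positivity
    · have h3 := mul_meas_ge_le_integral_of_nonneg (μ := μ)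
        (f := fun x => dev u c (F z.1) x * dev u c (F z.2) x)
        (Eventually.of_forall fun x => mul_nonneg (dev_nonneg _ _ _ _) (dev_nonneg _ _ _ _))
        (h.int_dev_mul (hF _) (hF _)) (δ ^ 4)
      rw [le_div_iff₀ (by positivity), mul_comm]
      have h4 : {x | z.1 ≠ z.2 ∧ δ ^ 4 ≤ dev u c (F z.1) x * dev u c (F z.2) x} =
          {x | δ ^ 4 ≤ dev u c (F z.1) x * dev u c (F z.2) x} := by
        ext x
        simp [hz]
      rw [h4]
      exact h3.trans (hB _ _ hz)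
  calc μ.real (bad2 u c δ F) ≤ _ := measureReal_mono h1 (measure_ne_top μ _)
    _ ≤ _ := measureReal_biUnion_finset_le _ _
    _ ≤ ∑ z ∈ (Finset.univ : Finset (Fin 3 × Fin 3)), B / δ ^ 4 := sum_le_sum h2
    _ = 9 * (B / δ ^ 4) := by
        rw [sum_const, nsmul_eq_mul]
        norm_num

/-- **Blocks.** -/
theorem rows (h : Good μ u c) (hc : c ≠ 0) {ρ : ℕ → ℝ} (hρ : Antitone ρ) (hρs : Summable ρ)
    {γ : ℝ} (hγ : 1 / 2 < γ) (hmix : Mix4 μ u γ ρ) :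
    ∃ F : ℕ → Fin 3 → Finset ℕ, (∀ j i, (F j i).Nonempty ∧ ∀ b ∈ F j i, b ≤ j ∧ Even b) ∧
      ∀ δ : ℝ, 0 < δ → Summable fun j => μ.real (bad2 u c δ (F j)) := by
  classical
  have hρ0 : ∀ n, 0 ≤ ρ n := fun n => hρ.le_of_tendsto hρs.tendsto_atTop_zero n
  -- we may assume `γ ≤ 1`
  obtain ⟨γ', hγ', hγ1, hmix'⟩ : ∃ γ' : ℝ, 1 / 2 < γ' ∧ γ' ≤ 1 ∧ Mix4 μ u γ' ρ := by
    refine ⟨min γ 1, lt_min hγ (by norm_num), min_le_right _ _, ?_⟩
    have h1 : ∀ D : ℕ, (D : ℝ) ^ min γ 1 ≤ (D : ℝ) ^ γ := by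
      intro D
      rcases Nat.eq_zero_or_pos D with rfl | hD
      · rw [Nat.cast_zero, Real.zero_rpow (lt_min (by linarith) (by norm_num)).ne',
          Real.zero_rpow (by linarith)]
      · exact Real.rpow_le_rpow_of_exponent_le (by exact_mod_cast hD) (min_le_left _ _)
    intro D a b h2 h3 h4 h5 h6 h7
    exact hmix D a b (h2.trans (h1 D)) (h3.trans (h1 D)) h4 h5 h6 h7
  have hev := growth hγ' hγ1 (L := 1) one_pos (m := 9) (by norm_num)
  obtain ⟨J, hJ⟩ := eventually_atTop.1 hev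
  let F : ℕ → Fin 3 → Finset ℕ := fun j i =>
    if J ≤ j then (Ico (i * (j / 9)) (i * (j / 9) + wd γ' 9 j)).image (fun b => 2 * b) else {0}
  have hw : ∀ j, J ≤ j → 1 ≤ wd γ' 9 j := by
    intro j hj
    have := (hJ j hj).2.1
    rwa [Nat.div_one] at this
  have hwD : ∀ j, J ≤ j → 4 * wd γ' 9 j ≤ j / 9 := by
    intro j hj
    have h1 := wd_le (γ := γ') 9 j
    have h2 : ((j / 9 : ℕ) : ℝ) ^ γ' ≤ ((j / 9 : ℕ) : ℝ) := by
      have h3 := Real.rpow_le_rpow_of_exponent_le (x := ((j / 9 : ℕ) : ℝ))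
        (by exact_mod_cast (hJ j hj).1) hγ1
      rwa [Real.rpow_one] at h3
    exact_mod_cast h1.trans h2
  have hFne : ∀ j i, (F j i).Nonempty := by
    intro j i
    by_cases hj : J ≤ j
    · simp only [F, if_pos hj]
      rw [image_nonempty, nonempty_Ico]
      have := hw j hj
      omega
    · simp only [F, if_neg hj]
      exact singleton_nonempty 0
  refine ⟨F, fun j i => ⟨hFne j i, fun b hb => ?_⟩, fun δ hδ => ?_⟩
  · by_cases hj : J ≤ j
    · simp only [F, if_pos hj] at hb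
      rw [mem_image] at hb
      obtain ⟨b', hb', rfl⟩ := hb
      rw [mem_Ico] at hb'
      have h1 := hwD j hj
      have h3 : (i : ℕ) * (j / 9) ≤ 2 * (j / 9) := Nat.mul_le_mul_right _ (by omega)
      exact ⟨by omega, even_two_mul b'⟩
    · simp only [F, if_neg hj] at hb
      rw [mem_singleton] at hb
      rw [hb]
      exact ⟨by omega, Even.zero⟩
  -- the bound
  obtain ⟨S, hS⟩ : ∃ S : ℝ, S = ∑' n, ρ n := ⟨_, rfl⟩
  have hS0 : 0 ≤ S := by rw [hS]; exact tsum_nonneg hρ0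
  have hc0 : 0 < ‖c‖ := norm_pos_iff.2 hc
  have hdev : ∀ j i, J ≤ j → ∫ x, dev u c (F j i) x ∂μ ≤ 2 * S / (wd γ' 9 j * ‖c‖ ^ 2) := by
    intro j i hj
    have h1 := h.integral_dev_le hc (hFne j i) (fun p q => ρ (Nat.dist p q))
      (fun p _ q _ => two_point h hmix' p q)
    have h2 : ∑ p ∈ F j i, ∑ q ∈ F j i, ρ (Nat.dist p q) ≤ (F j i).card * (2 * S) := by
      rw [← nsmul_eq_mul, ← sum_const, hS]
      exact sum_le_sum fun p _ => sum_rate_nat hρ0 hρs _ p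
    have h3 : ((F j i).card : ℝ) = wd γ' 9 j := by
      simp only [F, if_pos hj]
      rw [card_image_of_injective _ (fun a b h => Nat.eq_of_mul_eq_mul_left two_pos h), Nat.card_Ico,
        Nat.add_sub_cancel_left]
    have h4 : (0 : ℝ) < wd γ' 9 j := by exact_mod_cast hw j hj
    rw [h3] at h1 h2
    refine h1.trans ?_
    rw [div_le_div_iff₀ (by positivity) (by positivity)]
    have h5 : (0 : ℝ) < ‖c‖ ^ 2 := by positivity
    calc (∑ p ∈ F j i, ∑ q ∈ F j i, ρ (Nat.dist p q)) * (wd γ' 9 j * ‖c‖ ^ 2)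
        ≤ (wd γ' 9 j * (2 * S)) * (wd γ' 9 j * ‖c‖ ^ 2) :=
          mul_le_mul_of_nonneg_right h2 (by positivity)
      _ = 2 * S * ((wd γ' 9 j : ℝ) ^ 2 * ‖c‖ ^ 2) := by ring
  have hmul : ∀ j i l, J ≤ j → i ≠ l → ∫ x, dev u c (F j i) x * dev u c (F j l) x ∂μ ≤
      (2 * S / (wd γ' 9 j * ‖c‖ ^ 2)) ^ 2 + (1 + 1 / ‖c‖) ^ 4 * ρ (j / 9) := by
    intro j i l hj hil
    have hwj := hw j hj
    have hwDj := hwD j hj
    have hwl := wd_le (γ := γ') 9 j
    have h1 := h.integral_dev_mul_le (hFne j i) (hFne j l) (ε := ρ (j / 9)) ?_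
    · refine h1.trans (add_le_add ?_ le_rfl)
      rw [sq]
      refine mul_le_mul (hdev j i hj) (hdev j l hj) ?_ (by positivity)
      exact integral_nonneg fun x => dev_nonneg _ _ _ _
    · have hin : ∀ i, ∀ p ∈ F j i, ∃ p', p = 2 * p' ∧ (i : ℕ) * (j / 9) ≤ p' ∧
          p' < i * (j / 9) + wd γ' 9 j := by
        intro i p hp
        simp only [F, if_pos hj] at hp
        obtain ⟨p', hp', rfl⟩ := mem_image.1 hp
        exact ⟨p', rfl, mem_Ico.1 hp'⟩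
      have hnear : ∀ i, ∀ p ∈ F j i, ∀ q ∈ F j i, |(p : ℝ) - q| ≤ ((j / 9 : ℕ) : ℝ) ^ γ' := by
        intro i p hp q hq
        obtain ⟨p', hp', h2, h3⟩ := hin i p hp
        obtain ⟨q', hq', h4, h5⟩ := hin i q hq
        rw [← cast_dist]
        have h6 : Nat.dist p q ≤ 2 * wd γ' 9 j := by
          unfold Nat.dist
          omega
        have h7 : ((Nat.dist p q : ℕ) : ℝ) ≤ 2 * wd γ' 9 j := by exact_mod_cast h6
        have h8 : (0 : ℝ) ≤ wd γ' 9 j := by positivity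
        linarith
      have hfar : ∀ p ∈ F j i, ∀ q ∈ F j l, ((j / 9 : ℕ) : ℝ) ≤ |(p : ℝ) - q| := by
        intro p hp q hq
        obtain ⟨p', hp', h2, h3⟩ := hin i p hp
        obtain ⟨q', hq', h4, h5⟩ := hin l q hq
        rw [← cast_dist]
        have h6 : j / 9 ≤ Nat.dist p q := by
          unfold Nat.dist
          rcases lt_or_gt_of_ne (fun h : (i : ℕ) = l => hil (Fin.ext h)) with h7 | h7
          · have h8 : ((i : ℕ) + 1) * (j / 9) ≤ l * (j / 9) :=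
              Nat.mul_le_mul_right _ (by omega)
            have h9 : ((i : ℕ) + 1) * (j / 9) = i * (j / 9) + (j / 9) := by ring
            omega
          · have h8 : ((l : ℕ) + 1) * (j / 9) ≤ i * (j / 9) :=
              Nat.mul_le_mul_right _ (by omega)
            have h9 : ((l : ℕ) + 1) * (j / 9) = l * (j / 9) + (j / 9) := by ring
            omega
        exact_mod_cast h6
      intro a ha b hb
      simp only [ix, mem_product, mem_univ, true_and] at ha hb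
      exact hmix' (j / 9) a b (hnear i _ ha.1 _ ha.2) (hnear l _ hb.1 _ hb.2)
        (hfar _ ha.1 _ hb.1) (hfar _ ha.1 _ hb.2) (hfar _ ha.2 _ hb.1) (hfar _ ha.2 _ hb.2)
  -- summation
  have hs1 : Summable fun j : ℕ => 9 / δ ^ 4 * ((2 * S / ‖c‖ ^ 2) ^ 2 *
      ((64 * (1 : ℕ) ^ 2 * (4 * (9 : ℕ) ^ 2)) * (1 / (j : ℝ) ^ (2 * γ'))) +
        (1 + 1 / ‖c‖) ^ 4 * ρ (j / 9)) :=
    (((summable_growth hγ' _).mul_left _).add
      ((summable_div hρ0 hρs (by norm_num)).mul_left _)).mul_left _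
  refine Summable.of_norm_bounded_eventually_nat hs1 ?_
  filter_upwards [eventually_ge_atTop J] with j hj
  rw [Real.norm_eq_abs, abs_of_nonneg measureReal_nonneg]
  refine (bad2_le h (hFne j) hδ (fun i l hil => hmul j i l hj hil)).trans ?_
  have h3 := (hJ j hj).2.2
  rw [Nat.div_one] at h3
  have h4 : (0 : ℝ) < wd γ' 9 j := by exact_mod_cast hw j hj
  have h5 : (2 * S / (wd γ' 9 j * ‖c‖ ^ 2)) ^ 2 =
      (2 * S / ‖c‖ ^ 2) ^ 2 * (1 / (wd γ' 9 j : ℝ) ^ 2) := by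
    field_simp
  rw [h5]
  have h6 : (2 * S / ‖c‖ ^ 2) ^ 2 * (1 / (wd γ' 9 j : ℝ) ^ 2) ≤ (2 * S / ‖c‖ ^ 2) ^ 2 *
      ((64 * (1 : ℕ) ^ 2 * (4 * (9 : ℕ) ^ 2)) * (1 / (j : ℝ) ^ (2 * γ'))) :=
    mul_le_mul_of_nonneg_left h3 (by positivity)
  have h7 : (0 : ℝ) < 9 / δ ^ 4 := by positivity
  calc 9 * (((2 * S / ‖c‖ ^ 2) ^ 2 * (1 / (wd γ' 9 j : ℝ) ^ 2) +
        (1 + 1 / ‖c‖) ^ 4 * ρ (j / 9)) / δ ^ 4)
      = 9 / δ ^ 4 * ((2 * S / ‖c‖ ^ 2) ^ 2 * (1 / (wd γ' 9 j : ℝ) ^ 2) +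
        (1 + 1 / ‖c‖) ^ 4 * ρ (j / 9)) := by ring
    _ ≤ _ := mul_le_mul_of_nonneg_left (add_le_add h6 le_rfl) h7.le

end Helper13.MX
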